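import Pool.Agent.Helper63.Pak.Statement
import Pool.Agent.Helper63.Pak.Final

namespace Pool.Agent.Results.MP_005844_an.CommonIterate

open Pool.Agent.Helper63.Pak

/-- If `A`, `B` are rational functions of degree at least two such that every curve
`A^n(x) - B^m(y) = 0` has a factor of genus `0` or `1`, then `A` and `B` are both special or they
have a common iterate. -/
theorem result (A B : RatFunc ℂ) (hA : 2 ≤ rdeg A) (hB : 2 ≤ rdeg B)
    (h : ∀ n m : ℕ, 1 ≤ n → 1 ≤ m → HasFactorOfGenusLEOne (iter A n) (iter B m)) :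
    (IsSpecial A ∧ IsSpecial B) ∨ ∃ k l : ℕ, 1 ≤ k ∧ 1 ≤ l ∧ iter A k = iter B l :=
  final hA hB h

end Pool.Agent.Results.MP_005844_an.CommonIterate
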